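import Mathlib

set_option autoImplicit false

/-!
# MP_cc6d20_al, Q1: yes

There is a semi-separated set of identities characterizing inverse semigroups in terms of their
division bimagmas.  The set consists of the two mixed identities
`(x/y)\z = y/(z\x)` and `(x/x)\x = x`, five identities in `/` alone and their five mirror
images in `\` alone.
-/

namespace Pool.Agent.Results.MP_cc6d20_al.SemiSeparated

universe u

/-- Terms in the two binary operation symbols `\` (`ld`) and `/` (`rd`). -/
inductive Term : Type
  | var : ℕ → Term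
  | ld : Term → Term → Term
  | rd : Term → Term → Term

/-- The value of a term in the bimagma `(S, ld, rd)` under the assignment `v`. -/
def Term.eval {S : Type u} (ld rd : S → S → S) (v : ℕ → S) : Term → S
  | .var n => v n
  | .ld s t => ld (s.eval ld rd v) (t.eval ld rd v)
  | .rd s t => rd (s.eval ld rd v) (t.eval ld rd v)

/-- The symbol `\` occurs in the term. -/
def Term.UsesLd : Term → Prop
  | .var _ => False
  | .ld _ _ => True
  | .rd s t => s.UsesLd ∨ t.UsesLd

/-- The symbol `/` occurs in the term. -/
def Term.UsesRd : Term → Prop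
  | .var _ => False
  | .ld s t => s.UsesRd ∨ t.UsesRd
  | .rd _ _ => True

/-- An identity `lhs = rhs`. -/
structure Identity : Type where
  lhs : Term
  rhs : Term

/-- The bimagma `(S, ld, rd)` satisfies the identity. -/
def Identity.Holds (i : Identity) {S : Type u} (ld rd : S → S → S) : Prop :=
  ∀ v : ℕ → S, i.lhs.eval ld rd v = i.rhs.eval ld rd v

/-- The identity involves both operations: both `\` and `/` occur in it. -/
def Identity.InvolvesBoth (i : Identity) : Prop :=
  (i.lhs.UsesLd ∨ i.rhs.UsesLd) ∧ (i.lhs.UsesRd ∨ i.rhs.UsesRd)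

/-- `(S, mul, inv)` is an inverse semigroup: `mul` is associative and `inv x` is the unique `y`
with `xyx = x` and `yxy = y`. -/
def IsInverseSemigroup {S : Type u} (mul : S → S → S) (inv : S → S) : Prop :=
  (∀ x y z, mul (mul x y) z = mul x (mul y z)) ∧
  (∀ x, mul (mul x (inv x)) x = x ∧ mul (mul (inv x) x) (inv x) = inv x) ∧
  (∀ x y, mul (mul x y) x = x → mul (mul y x) y = y → y = inv x)

/-- `(S, ld, rd)` is the division bimagma of an inverse semigroup on `S`:
`x\y = x'y` and `x/y = xy'`. -/
def IsDivisionBimagma {S : Type u} (ld rd : S → S → S) : Prop :=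
  ∃ (mul : S → S → S) (inv : S → S), IsInverseSemigroup mul inv ∧
    (∀ x y, ld x y = mul (inv x) y) ∧ (∀ x y, rd x y = mul x (inv y))

/-- A set of identities characterizes inverse semigroups in terms of their division bimagmas:
a bimagma satisfies all of them exactly when it is the division bimagma of an inverse semigroup
on the same set. -/
def Characterizes (E : Set Identity) : Prop :=
  ∀ (S : Type u) (ld rd : S → S → S),
    (∀ i ∈ E, i.Holds ld rd) ↔ IsDivisionBimagma ld rd

/-- A set of identities is semi-separated if at most two of its members involve both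
operations. -/
def IsSemiSeparated (E : Set Identity) : Prop :=
  {i | i ∈ E ∧ i.InvolvesBoth}.encard ≤ 2

/-! ### The identities -/

/-- `(x/y)\z = y/(z\x)` -/
def T1 : Identity :=
  ⟨.ld (.rd (.var 0) (.var 1)) (.var 2), .rd (.var 1) (.ld (.var 2) (.var 0))⟩

/-- `(x/x)\x = x` -/
def T2 : Identity := ⟨.ld (.rd (.var 0) (.var 0)) (.var 0), .var 0⟩

/-- `(u/u)/t = (v/v)/t` for `t = (x/(u/u))/(v/v)` -/
def R1 : Identity :=
  ⟨.rd (.rd (.var 1) (.var 1))
      (.rd (.rd (.var 0) (.rd (.var 1) (.var 1))) (.rd (.var 2) (.var 2))),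
    .rd (.rd (.var 2) (.var 2))
      (.rd (.rd (.var 0) (.rd (.var 1) (.var 1))) (.rd (.var 2) (.var 2)))⟩

/-- `(x/z)/(z/z) = x/z` -/
def R2 : Identity :=
  ⟨.rd (.rd (.var 0) (.var 1)) (.rd (.var 1) (.var 1)), .rd (.var 0) (.var 1)⟩

/-- `(z/z)/(x/z) = z/x` -/
def R3 : Identity :=
  ⟨.rd (.rd (.var 1) (.var 1)) (.rd (.var 0) (.var 1)), .rd (.var 1) (.var 0)⟩

/-- `(x/((u/u)/Y))/w = x/(w/Y)` for `Y = y/(u/u)` -/
def R4 : Identity :=
  ⟨.rd (.rd (.var 0) (.rd (.rd (.var 2) (.var 2)) (.rd (.var 1) (.rd (.var 2) (.var 2)))))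
      (.var 3),
    .rd (.var 0) (.rd (.var 3) (.rd (.var 1) (.rd (.var 2) (.var 2))))⟩

/-- `(x/x)/(y/y) = (y/y)/(x/x)` -/
def R5 : Identity :=
  ⟨.rd (.rd (.var 0) (.var 0)) (.rd (.var 1) (.var 1)),
    .rd (.rd (.var 1) (.var 1)) (.rd (.var 0) (.var 0))⟩

/-- The mirror image of `R1`. -/
def L1 : Identity :=
  ⟨.ld (.ld (.ld (.var 2) (.var 2)) (.ld (.ld (.var 1) (.var 1)) (.var 0)))
      (.ld (.var 1) (.var 1)),
    .ld (.ld (.ld (.var 2) (.var 2)) (.ld (.ld (.var 1) (.var 1)) (.var 0)))
      (.ld (.var 2) (.var 2))⟩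

/-- The mirror image of `R2`. -/
def L2 : Identity :=
  ⟨.ld (.ld (.var 1) (.var 1)) (.ld (.var 1) (.var 0)), .ld (.var 1) (.var 0)⟩

/-- The mirror image of `R3`. -/
def L3 : Identity :=
  ⟨.ld (.ld (.var 1) (.var 0)) (.ld (.var 1) (.var 1)), .ld (.var 0) (.var 1)⟩

/-- The mirror image of `R4`. -/
def L4 : Identity :=
  ⟨.ld (.var 3)
      (.ld (.ld (.ld (.ld (.var 2) (.var 2)) (.var 1)) (.ld (.var 2) (.var 2))) (.var 0)),
    .ld (.ld (.ld (.ld (.var 2) (.var 2)) (.var 1)) (.var 3)) (.var 0)⟩

/-- The mirror image of `R5`. -/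
def L5 : Identity :=
  ⟨.ld (.ld (.var 1) (.var 1)) (.ld (.var 0) (.var 0)),
    .ld (.ld (.var 0) (.var 0)) (.ld (.var 1) (.var 1))⟩

/-- The semi-separated set of twelve identities. -/
def Sigma : Set Identity := {T1, T2, R1, R2, R3, R4, R5, L1, L2, L3, L4, L5}

/-! ### Inverse semigroups as unary semigroups -/

/-- A convenient set of axioms for inverse semigroups. -/
structure Uni {S : Type u} (m : S → S → S) (i : S → S) : Prop where
  assoc : ∀ x y z, m (m x y) z = m x (m y z)
  inv_inv : ∀ x, i (i x) = x
  inv_mul : ∀ x y, i (m x y) = m (i y) (i x)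
  reg : ∀ x, m (m x (i x)) x = x
  comm : ∀ x y, m (m x (i x)) (m y (i y)) = m (m y (i y)) (m x (i x))

variable {S : Type u} {m : S → S → S} {i : S → S}

theorem Uni.reg' (h : Uni m i) (x : S) : m (m (i x) x) (i x) = i x := by
  have := h.reg (i x)
  rwa [h.inv_inv] at this

theorem Uni.comm' (h : Uni m i) (x y : S) :
    m (m (i x) x) (m y (i y)) = m (m y (i y)) (m (i x) x) := by
  have := h.comm (i x) y
  rwa [h.inv_inv] at this

theorem Uni.idem_inv (h : Uni m i) {e : S} (he : m e e = e) : i e = e := by
  have h1 : m (i e) (i e) = i e := by rw [← h.inv_mul, he]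
  calc i e = m (m (i e) e) (i e) := (h.reg' e).symm
    _ = m (m (i e) (m e e)) (i e) := by rw [he]
    _ = m (m (i e) e) (m e (i e)) := by simp only [h.assoc]
    _ = m (m e (i e)) (m (i e) e) := h.comm' e e
    _ = m (m e (m (i e) (i e))) e := by simp only [h.assoc]
    _ = m (m e (i e)) e := by rw [h1]
    _ = e := h.reg e

theorem Uni.idem_comm (h : Uni m i) {e f : S} (he : m e e = e) (hf : m f f = f) :
    m e f = m f e := by
  have := h.comm e f
  rwa [h.idem_inv he, h.idem_inv hf, he, hf] at this

theorem Uni.proj_idem (h : Uni m i) (x : S) : m (m x (i x)) (m x (i x)) = m x (i x) := by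
  rw [← h.assoc, h.reg]

theorem Uni.proj_idem' (h : Uni m i) (x : S) : m (m (i x) x) (m (i x) x) = m (i x) x := by
  rw [← h.assoc, h.reg']

theorem Uni.isInverseSemigroup (h : Uni m i) : IsInverseSemigroup m i := by
  refine ⟨h.assoc, fun x => ⟨h.reg x, h.reg' x⟩, fun x y h1 h2 => ?_⟩
  have e1 : m (m x y) (m x y) = m x y := by rw [← h.assoc, h1]
  have e2 : m (m y x) (m y x) = m y x := by rw [← h.assoc, h2]
  have k1 : y = m (m (i x) x) y := by
    calc y = m (m y x) y := h2.symm
      _ = m (m y (m (m x (i x)) x)) y := by rw [h.reg]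
      _ = m (m (m y x) (m (i x) x)) y := by simp only [h.assoc]
      _ = m (m (m (i x) x) (m y x)) y := by rw [h.idem_comm e2 (h.proj_idem' x)]
      _ = m (m (i x) x) (m (m y x) y) := by simp only [h.assoc]
      _ = m (m (i x) x) y := by rw [h2]
  have k2 : i x = m (m (i x) x) y := by
    calc i x = m (m (i x) x) (i x) := (h.reg' x).symm
      _ = m (m (i x) (m (m x y) x)) (i x) := by rw [h1]
      _ = m (i x) (m (m x y) (m x (i x))) := by simp only [h.assoc]
      _ = m (i x) (m (m x (i x)) (m x y)) := by rw [h.idem_comm e1 (h.proj_idem x)]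
      _ = m (m (m (i x) x) (i x)) (m x y) := by simp only [h.assoc]
      _ = m (i x) (m x y) := by rw [h.reg']
      _ = m (m (i x) x) y := by rw [h.assoc]
  rw [k1, ← k2]

theorem Uni.of_isInverseSemigroup (h : IsInverseSemigroup m i) : Uni m i := by
  obtain ⟨assoc, reg, uniq⟩ := h
  have inv_inv : ∀ x, i (i x) = x := fun x => (uniq (i x) x (reg x).2 (reg x).1).symm
  have idem_inv : ∀ e, m e e = e → i e = e := fun e he =>
    (uniq e e (by rw [he, he]) (by rw [he, he])).symm
  have prod_idem : ∀ e f, m e e = e → m f f = f → m (m e f) (m e f) = m e f := by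
    intro e f he hf
    set x := i (m e f) with hx
    have r1 : m (m (m e f) x) (m e f) = m e f := (reg (m e f)).1
    have r2 : m (m x (m e f)) x = x := (reg (m e f)).2
    have hy : m (m f x) e = x := by
      apply uniq (m e f) (m (m f x) e)
      · calc m (m (m e f) (m (m f x) e)) (m e f)
            = m (m (m e (m f f)) x) (m (m e e) f) := by simp only [assoc]
          _ = m (m (m e f) x) (m e f) := by rw [he, hf]
          _ = m e f := r1
      · calc m (m (m (m f x) e) (m e f)) (m (m f x) e)
            = m (m f (m (m x (m (m e e) (m f f))) x)) e := by simp only [assoc]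
          _ = m (m f (m (m x (m e f)) x)) e := by rw [he, hf]
          _ = m (m f x) e := by rw [r2]
    have hxx : m x x = x := by
      have : m (m (m f x) e) (m (m f x) e) = m (m f x) e := by
        calc m (m (m f x) e) (m (m f x) e) = m (m f (m (m x (m e f)) x)) e := by
              simp only [assoc]
          _ = m (m f x) e := by rw [r2]
      rwa [hy] at this
    have hxe : m e f = x := by
      rw [← idem_inv x hxx, hx, inv_inv]
    rw [hxe, hxx]
  have idem_comm : ∀ e f, m e e = e → m f f = f → m e f = m f e := by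
    intro e f he hf
    have p1 := prod_idem e f he hf
    have p2 := prod_idem f e hf he
    have h1 : m f e = i (m e f) := by
      apply uniq (m e f) (m f e)
      · calc m (m (m e f) (m f e)) (m e f) = m (m e (m f f)) (m (m e e) f) := by
              simp only [assoc]
          _ = m e f := by rw [he, hf, p1]
      · calc m (m (m f e) (m e f)) (m f e) = m (m f (m e e)) (m (m f f) e) := by
              simp only [assoc]
          _ = m f e := by rw [he, hf, p2]
    rw [h1, idem_inv _ p1]
  have pi : ∀ x, m (m x (i x)) (m x (i x)) = m x (i x) := fun x => by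
    rw [← assoc, (reg x).1]
  have pi' : ∀ x, m (m (i x) x) (m (i x) x) = m (i x) x := fun x => by
    rw [← assoc, (reg x).2]
  refine ⟨assoc, inv_inv, ?_, fun x => (reg x).1, fun x y => idem_comm _ _ (pi x) (pi y)⟩
  intro x y
  symm
  apply uniq
  · calc m (m (m x y) (m (i y) (i x))) (m x y)
        = m (m x (m (m y (i y)) (m (i x) x))) y := by simp only [assoc]
      _ = m (m x (m (m (i x) x) (m y (i y)))) y := by rw [idem_comm _ _ (pi y) (pi' x)]
      _ = m (m (m x (i x)) x) (m (m y (i y)) y) := by simp only [assoc]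
      _ = m x y := by rw [(reg x).1, (reg y).1]
  · calc m (m (m (i y) (i x)) (m x y)) (m (i y) (i x))
        = m (m (i y) (m (m (i x) x) (m y (i y)))) (i x) := by simp only [assoc]
      _ = m (m (i y) (m (m y (i y)) (m (i x) x))) (i x) := by
            rw [idem_comm _ _ (pi y) (pi' x)]
      _ = m (m (m (i y) y) (i y)) (m (m (i x) x) (i x)) := by simp only [assoc]
      _ = m (i y) (i x) := by rw [(reg x).2, (reg y).2]

/-! ### Inverse semigroup structure from one division -/

section oneSide

variable {r : S → S → S} {D : S → S}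

/-- The hypotheses: the five pure identities, and every `x` has a right unit `D x` of the form
`u/u`. -/
structure Pure (r : S → S → S) (D : S → S) : Prop where
  d1 : ∀ x, r (D x) (D x) = D x
  d2 : ∀ x, r x (D x) = x
  a : ∀ x u v, r (r u u) (r (r x (r u u)) (r v v)) = r (r v v) (r (r x (r u u)) (r v v))
  c1 : ∀ x z, r (r x z) (r z z) = r x z
  c2 : ∀ x z, r (r z z) (r x z) = r z x
  d : ∀ x y u w, r (r x (r (r u u) (r y (r u u)))) w = r x (r w (r y (r u u)))
  f : ∀ x y, r (r x x) (r y y) = r (r y y) (r x x)

/-- The inverse. -/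
def pinv (r : S → S → S) (D : S → S) (x : S) : S := r (D x) x

/-- The product. -/
def pmul (r : S → S → S) (D : S → S) (x y : S) : S := r x (pinv r D y)

theorem Pure.indep (h : Pure r D) {x E F : S} (hE : r E E = E) (hF : r F F = F)
    (h1 : r x E = x) (h2 : r x F = x) : r E x = r F x := by
  have := h.a x E F
  rwa [hE, hF, h1, h2] at this

theorem Pure.pinv_r (h : Pure r D) (x z : S) : pinv r D (r x z) = r z x := by
  have h1 : r (D (r x z)) (r x z) = r (r z z) (r x z) :=
    h.indep (h.d1 _) (h.c2 z z) (h.d2 _) (h.c1 x z)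
  rw [pinv, h1, h.c2]

theorem Pure.pinv_pinv (h : Pure r D) (x : S) : pinv r D (pinv r D x) = x := by
  conv_lhs => rw [show pinv r D x = r (D x) x from rfl]
  rw [h.pinv_r, h.d2]

theorem Pure.r_eq (h : Pure r D) (x y : S) : r x y = pmul r D x (pinv r D y) := by
  rw [pmul, h.pinv_pinv]

theorem Pure.uni (h : Pure r D) : Uni (pmul r D) (pinv r D) := by
  refine ⟨fun x y z => ?_, h.pinv_pinv, fun x y => ?_, fun x => ?_, fun x y => ?_⟩
  · have h1 := h.d x y (D y) (pinv r D z)
    rw [h.d1, h.d2] at h1
    have h2 : pinv r D (r y (pinv r D z)) = r (pinv r D z) y := h.pinv_r _ _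
    show r (r x (r (D y) y)) (pinv r D z) = r x (pinv r D (r y (pinv r D z)))
    rw [h2, h1]
  · show pinv r D (r x (pinv r D y)) = r (pinv r D y) (pinv r D (pinv r D x))
    rw [h.pinv_r, h.pinv_pinv]
  · show r (r x (pinv r D (pinv r D x))) (r (D x) x) = x
    rw [h.pinv_pinv, h.c2, h.d2]
  · show r (r x (pinv r D (pinv r D x))) (pinv r D (r y (pinv r D (pinv r D y)))) =
      r (r y (pinv r D (pinv r D y))) (pinv r D (r x (pinv r D (pinv r D x))))
    rw [h.pinv_pinv, h.pinv_pinv, h.pinv_r, h.pinv_r, h.f]

end oneSide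

/-! ### Two inverse semigroup structures coincide -/

theorem coincide {m s : S → S → S} {i : S → S} (hm : Uni m i) (hs : Uni s i)
    (hx : ∀ y x z, s (m y x) z = m y (s x z))
    (hE : ∀ e, m e e = e → s e e = e) (hE' : ∀ e, s e e = e → m e e = e)
    (h2 : ∀ x, s (m x (i x)) x = x) (h3 : ∀ x, m x (s (i x) x) = x) :
    ∀ x y, m x y = s x y := by
  -- products of idempotents
  have b1 : ∀ e f, m e e = e → m f f = f → m e (s e f) = s e f := by
    intro e f he _
    rw [← hx, he]
  have b2 : ∀ e f, m e e = e → m f f = f → s (m e f) f = m e f := by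
    intro e f _ hf
    rw [hx, hE f hf]
  have idm : ∀ e f, m e e = e → m f f = f → m (m e f) (m e f) = m e f := by
    intro e f he hf
    calc m (m e f) (m e f) = m (m e (m f e)) f := by simp only [hm.assoc]
      _ = m (m e (m e f)) f := by rw [hm.idem_comm hf he]
      _ = m (m e e) (m f f) := by simp only [hm.assoc]
      _ = m e f := by rw [he, hf]
  have ids : ∀ e f, s e e = e → s f f = f → s (s e f) (s e f) = s e f := by
    intro e f he hf
    calc s (s e f) (s e f) = s (s e (s f e)) f := by simp only [hs.assoc]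
      _ = s (s e (s e f)) f := by rw [hs.idem_comm hf he]
      _ = s (s e e) (s f f) := by simp only [hs.assoc]
      _ = s e f := by rw [he, hf]
  have c1 : ∀ e f, m e e = e → m f f = f → m (m e f) (s e f) = s e f := by
    intro e f he hf
    rw [hm.assoc]
    have : m f (s e f) = s e f := by
      rw [hs.idem_comm (hE e he) (hE f hf)]
      exact b1 f e hf he
    rw [this, b1 e f he hf]
  have c2 : ∀ e f, m e e = e → m f f = f → s (m e f) (s e f) = m e f := by
    intro e f he hf
    rw [← hs.assoc]
    have : s (m e f) e = m e f := by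
      rw [hm.idem_comm he hf]
      exact b2 f e hf he
    rw [this, b2 e f he hf]
  have idem_eq : ∀ e f, m e e = e → m f f = f → m e f = s e f := by
    intro e f he hf
    have ha : m (m e f) (m e f) = m e f := idm e f he hf
    have hb : m (s e f) (s e f) = s e f := hE' _ (ids e f (hE e he) (hE f hf))
    have h := c1 (m e f) (s e f) ha hb
    rw [c1 e f he hf, c2 e f he hf, hm.idem_comm hb ha, c1 e f he hf] at h
    exact h.symm
  have proj_eq : ∀ x, m x (i x) = s x (i x) := by
    intro x
    have he : m (m x (i x)) (m x (i x)) = m x (i x) := hm.proj_idem x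
    have hf : m (s x (i x)) (s x (i x)) = s x (i x) := hE' _ (hs.proj_idem x)
    have k1 : s (m x (i x)) (s x (i x)) = s x (i x) := by rw [← hs.assoc, h2]
    have k2 : m (m x (i x)) (s x (i x)) = m x (i x) := by
      have := h3 (i x)
      rw [hm.inv_inv] at this
      rw [hm.assoc, this]
    rw [← k2, idem_eq _ _ he hf, k1]
  have pf : ∀ x, m (s x (i x)) (s x (i x)) = s x (i x) := fun x => hE' _ (hs.proj_idem x)
  have left : ∀ e x, m e e = e → m e x = s e x := by
    intro e x he
    calc m e x = m e (s x (s (i x) x)) := by rw [← hs.assoc, hs.reg]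
      _ = s (m e x) (s (i x) x) := by rw [hx]
      _ = s (s (m e x) (i x)) x := by rw [hs.assoc]
      _ = s (m e (s x (i x))) x := by rw [hx]
      _ = s (s e (s x (i x))) x := by rw [idem_eq e _ he (pf x)]
      _ = s e x := by rw [hs.assoc, hs.reg]
  have right : ∀ x e, m e e = e → m x e = s x e := by
    intro x e he
    rw [← hm.inv_inv (m x e), hm.inv_mul, hm.idem_inv he, left e (i x) he, hs.inv_mul,
      hm.inv_inv, hm.idem_inv he]
  intro y x
  calc m y x = m y (s x (s (i x) x)) := by rw [← hs.assoc, hs.reg]
    _ = s (m y x) (s (i x) x) := by rw [hx]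
    _ = s (s (m y x) (i x)) x := by rw [hs.assoc]
    _ = s (m y (s x (i x))) x := by rw [hx]
    _ = s (s y (s x (i x))) x := by rw [right y _ (pf x)]
    _ = s y x := by rw [hs.assoc, hs.reg]

/-! ### The main theorem -/

theorem forward (ld rd : S → S → S) (h : ∀ i ∈ Sigma, i.Holds ld rd) :
    IsDivisionBimagma ld rd := by
  have t1 : ∀ x y z, ld (rd x y) z = rd y (ld z x) := fun x y z => by
    have := h T1 (by simp [Sigma]) (fun n => if n = 0 then x else if n = 1 then y else z)
    simpa [T1, Term.eval] using this
  have t2 : ∀ x, ld (rd x x) x = x := fun x => by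
    have := h T2 (by simp [Sigma]) (fun _ => x)
    simpa [T2, Term.eval] using this
  have t2' : ∀ x, rd x (ld x x) = x := fun x => by rw [← t1, t2]
  have r2 : ∀ x z, rd (rd x z) (rd z z) = rd x z := fun x z => by
    have := h R2 (by simp [Sigma]) (fun n => if n = 0 then x else z)
    simpa [R2, Term.eval] using this
  have r3 : ∀ x z, rd (rd z z) (rd x z) = rd z x := fun x z => by
    have := h R3 (by simp [Sigma]) (fun n => if n = 0 then x else z)
    simpa [R3, Term.eval] using this
  have l2 : ∀ x z, ld (ld z z) (ld z x) = ld z x := fun x z => by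
    have := h L2 (by simp [Sigma]) (fun n => if n = 0 then x else z)
    simpa [L2, Term.eval] using this
  have l3 : ∀ x z, ld (ld z x) (ld z z) = ld x z := fun x z => by
    have := h L3 (by simp [Sigma]) (fun n => if n = 0 then x else z)
    simpa [L3, Term.eval] using this
  have eR : ∀ x, ld (rd x x) (rd x x) = rd x x := fun x => by
    have := t2 (rd x x)
    rwa [r2] at this
  have eL : ∀ x, rd (ld x x) (ld x x) = ld x x := fun x => by
    have := t2' (ld x x)
    rwa [l2] at this
  have hR : Pure rd (fun x => ld x x) := by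
    refine ⟨eL, t2', fun x u v => ?_, r2, r3, fun x y u w => ?_, fun x y => ?_⟩
    · have := h R1 (by simp [Sigma]) (fun n => if n = 0 then x else if n = 1 then u else v)
      simpa [R1, Term.eval] using this
    · have := h R4 (by simp [Sigma])
        (fun n => if n = 0 then x else if n = 1 then y else if n = 2 then u else w)
      simpa [R4, Term.eval] using this
    · have := h R5 (by simp [Sigma]) (fun n => if n = 0 then x else y)
      simpa [R5, Term.eval] using this
  have hL : Pure (fun x y => ld y x) (fun x => rd x x) := by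
    refine ⟨eR, t2, fun x u v => ?_, l2, l3, fun x y u w => ?_, fun x y => ?_⟩
    · have := h L1 (by simp [Sigma]) (fun n => if n = 0 then x else if n = 1 then u else v)
      simpa [L1, Term.eval] using this
    · have := h L4 (by simp [Sigma])
        (fun n => if n = 0 then x else if n = 1 then y else if n = 2 then u else w)
      simpa [L4, Term.eval] using this
    · have := h L5 (by simp [Sigma]) (fun n => if n = 0 then x else y)
      simpa [L5, Term.eval] using this
  -- the two inverses agree
  have hinv : pinv rd (fun x => ld x x) = pinv (fun x y => ld y x) (fun x => rd x x) := by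
    funext x
    show rd (ld x x) x = ld x (rd x x)
    have := t1 x (ld x x) (rd x x)
    rw [t2', t2] at this
    exact this.symm
  set i := pinv rd (fun x => ld x x) with hi
  set m := pmul rd (fun x => ld x x) with hm
  have um : Uni m i := hR.uni
  have us' := hL.uni
  rw [← hinv] at us'
  set m' := pmul (fun x y => ld y x) (fun x => rd x x) with hm'
  have m'_def : ∀ x y, m' x y = ld (i y) x := fun x y => by
    rw [hm', pmul, ← hinv]
  have m_def : ∀ x y, m x y = rd x (i y) := fun x y => rfl
  have us : Uni (fun x y => m' y x) i :=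
    ⟨fun x y z => (us'.assoc z y x).symm, us'.inv_inv, fun x y => us'.inv_mul y x,
      fun x => by
        show m' x (m' (i x) x) = x
        rw [← us'.assoc, us'.reg],
      fun x y => by
        have := us'.comm' y x
        show m' (m' (i y) y) (m' (i x) x) = m' (m' (i x) x) (m' (i y) y)
        have h1 := us'.comm (i y) (i x)
        rwa [us'.inv_inv, us'.inv_inv] at h1⟩
  have ird : ∀ x z, i (rd x z) = rd z x := fun x z => hR.pinv_r x z
  have ild : ∀ x z, i (ld x z) = ld z x := fun x z => by
    have := hL.pinv_r z x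
    rw [← hinv] at this
    exact this
  have ii : ∀ x, i (i x) = x := um.inv_inv
  have ld_eq : ∀ x y, ld x y = m' y (i x) := fun x y => by rw [m'_def, ii]
  have rd_eq : ∀ x y, rd x y = m x (i y) := fun x y => by rw [m_def, ii]
  have inter : ∀ y x z, m' z (m y x) = m y (m' z x) := by
    intro y x z
    rw [m'_def, m_def, m_def, m'_def, ird, ild]
    exact t1 (i x) y z
  have key := coincide (m := m) (s := fun x y => m' y x) (i := i) um us inter
    (fun e he => by
      have h1 : rd e e = e := by rw [rd_eq, um.idem_inv he, he]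
      show m' e e = e
      rw [m'_def, um.idem_inv he]
      have := eR e
      rwa [h1] at this)
    (fun e he => by
      have he' : m' e e = e := he
      have h0 : i e = e := us.idem_inv he
      have h1 : ld e e = e := by rw [ld_eq, h0, he']
      rw [m_def, h0]
      have := eL e
      rwa [h1] at this)
    (fun x => by
      show m' x (m x (i x)) = x
      rw [← rd_eq, m'_def, ird, t2])
    (fun x => by
      show m x (m' x (i x)) = x
      rw [← ld_eq, m_def, ild, t2'])
  refine ⟨m, i, um.isInverseSemigroup, fun x y => ?_, rd_eq⟩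
  rw [ld_eq, key]

theorem backward (ld rd : S → S → S) (h : IsDivisionBimagma ld rd) :
    ∀ i ∈ Sigma, i.Holds ld rd := by
  obtain ⟨m, i, hmi, hld, hrd⟩ := h
  have u := Uni.of_isInverseSemigroup hmi
  have ii := u.inv_inv
  have im := u.inv_mul
  have as := u.assoc
  have reg : ∀ x, m x (m (i x) x) = x := fun x => by rw [← as, u.reg]
  have reg' : ∀ x, m (i x) (m x (i x)) = i x := fun x => by rw [← as, u.reg']
  have regz : ∀ x z, m x (m (i x) (m x z)) = m x z := fun x z => by
    rw [← as, ← as, u.reg]
  have regz' : ∀ x z, m (i x) (m x (m (i x) z)) = m (i x) z := fun x z => by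
    rw [← as, ← as, u.reg']
  -- commuting projections, in right-associated form
  have cm : ∀ x y z, m x (m (i x) (m y (m (i y) z))) = m y (m (i y) (m x (m (i x) z))) := by
    intro x y z
    have := congrArg (fun t => m t z) (u.comm x y)
    simpa only [as] using this
  have cm' : ∀ x y z, m (i x) (m x (m (i y) (m y z))) = m (i y) (m y (m (i x) (m x z))) := by
    intro x y z
    have := cm (i x) (i y) z
    simpa only [ii] using this
  have cme : ∀ x y, m x (m (i x) (m y (i y))) = m y (m (i y) (m x (i x))) := by
    intro x y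
    have := u.comm x y
    simpa only [as] using this
  have cme' : ∀ x y, m (i x) (m x (m (i y) y)) = m (i y) (m y (m (i x) x)) := by
    intro x y
    have := cme (i x) (i y)
    simpa only [ii] using this
  intro j hj
  simp only [Sigma, Set.mem_insert_iff, Set.mem_singleton_iff] at hj
  rcases hj with rfl | rfl | rfl | rfl | rfl | rfl | rfl | rfl | rfl | rfl | rfl | rfl
  · intro v
    simp only [T1, Term.eval, hld, hrd, im, ii, as]
  · intro v
    simp only [T2, Term.eval, hld, hrd, im, ii, as, reg]
  · intro v
    simp only [R1, Term.eval, hld, hrd, im, ii, as]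
    rw [cm (v 1) (v 2), regz]
    rw [regz]
  · intro v
    simp only [R2, Term.eval, hld, hrd, im, ii, as]
    rw [reg']
  · intro v
    simp only [R3, Term.eval, hld, hrd, im, ii, as]
    rw [regz]
  · intro v
    simp only [R4, Term.eval, hld, hrd, im, ii, as]
    rw [regz' (v 2)]
  · intro v
    simp only [R5, Term.eval, hld, hrd, im, ii, as]
    rw [cme]
  · intro v
    simp only [L1, Term.eval, hld, hrd, im, ii, as]
    rw [regz' (v 2) (v 2), cme' (v 2) (v 1), regz' (v 1)]
  · intro v
    simp only [L2, Term.eval, hld, hrd, im, ii, as]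
    rw [regz']
  · intro v
    simp only [L3, Term.eval, hld, hrd, im, ii, as]
    rw [reg]
  · intro v
    simp only [L4, Term.eval, hld, hrd, im, ii, as]
    rw [regz' (v 2)]
  · intro v
    simp only [L5, Term.eval, hld, hrd, im, ii, as]
    rw [cme']

theorem mixed_iff (j : Identity) (hj : j ∈ Sigma) (hb : j.InvolvesBoth) : j = T1 ∨ j = T2 := by
  simp only [Sigma, Set.mem_insert_iff, Set.mem_singleton_iff] at hj
  rcases hj with rfl | rfl | rfl | rfl | rfl | rfl | rfl | rfl | rfl | rfl | rfl | rfl
  · exact Or.inl rfl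
  · exact Or.inr rfl
  all_goals
    exfalso
    simp [Identity.InvolvesBoth, R1, R2, R3, R4, R5, L1, L2, L3, L4, L5, Term.UsesLd,
      Term.UsesRd] at hb

/-- **MP_cc6d20_al, Q1: yes.**  There is a (finite) semi-separated set of identities in `\`, `/`
that characterizes inverse semigroups in terms of their division bimagmas. -/
theorem result : ∃ E : Set Identity, E.Finite ∧ Characterizes.{u} E ∧ IsSemiSeparated E := by
  refine ⟨Sigma, by simp [Sigma], fun S ld rd => ⟨forward ld rd, backward ld rd⟩, ?_⟩
  have hsub : {i | i ∈ Sigma ∧ i.InvolvesBoth} ⊆ ({T1, T2} : Set Identity) := by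
    rintro j ⟨hj, hb⟩
    rcases mixed_iff j hj hb with h | h
    · exact Or.inl h
    · exact Or.inr h
  exact (Set.encard_le_encard hsub).trans (Set.encard_insert_le _ _ |>.trans (by
    rw [Set.encard_singleton]; norm_num))

end Pool.Agent.Results.MP_cc6d20_al.SemiSeparated
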